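import Pool.Graph.R_pool_sql_team_39128cda.H.MP_a58584.D

/-!
# Tychonoff cubes in continuous images of Tychonoff cubes

If a continuous map `m : I^B → X` to a Hausdorff space is not constant on any `I^(B ∖ S)`, `S`
countable, then `X` contains the Tychonoff cube `I^ω₁`.
-/

set_option autoImplicit false

open Set Function Topology Filter TopologicalSpace unitInterval

namespace Pool.Agent.Helper75.TE

open Pool.Agent.H.MP_a58584

/-- the piecewise linear function which is `0` up to `a` and `1` from `b` on -/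
noncomputable def ramp (ab : ℚ × ℚ) (x : I) : I :=
  projIcc (0 : ℝ) 1 zero_le_one (((x : ℝ) - ab.1) / (ab.2 - ab.1))

lemma continuous_ramp (ab : ℚ × ℚ) : Continuous (ramp ab) := by
  unfold ramp
  exact continuous_projIcc.comp ((continuous_subtype_val.sub continuous_const).div_const _)

lemma ramp_zero {ab : ℚ × ℚ} (h : ab.1 < ab.2) {x : I} (hx : (x : ℝ) ≤ ab.1) : ramp ab x = 0 := by
  have h1 : (0 : ℝ) < ab.2 - ab.1 := sub_pos.2 (by exact_mod_cast h)
  have h2 : ((x : ℝ) - ab.1) / (ab.2 - ab.1) ≤ 0 :=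
    div_nonpos_of_nonpos_of_nonneg (sub_nonpos.2 hx) h1.le
  exact projIcc_of_le_left _ h2

lemma ramp_one {ab : ℚ × ℚ} (h : ab.1 < ab.2) {x : I} (hx : (ab.2 : ℝ) ≤ x) : ramp ab x = 1 := by
  have h1 : (0 : ℝ) < ab.2 - ab.1 := sub_pos.2 (by exact_mod_cast h)
  have h2 : 1 ≤ ((x : ℝ) - ab.1) / (ab.2 - ab.1) := by
    rw [le_div_iff₀ h1]
    linarith
  exact projIcc_of_right_le _ h2

/-- two different numbers are moved to the ends of the interval by a ramp -/
lemma exists_ramp {x y : I} (h : x < y) : ∃ ab : ℚ × ℚ, ramp ab x = 0 ∧ ramp ab y = 1 := by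
  have h' : (x : ℝ) < y := h
  obtain ⟨a, ha1, ha2⟩ := exists_rat_btwn h'
  obtain ⟨b, hb1, hb2⟩ := exists_rat_btwn ha2
  have hab : a < b := by exact_mod_cast hb1
  exact ⟨(a, b), ramp_zero hab ha1.le, ramp_one hab hb2.le⟩

/-- A map of a cube which separates the opposite faces is injective on a cube. -/
lemma injective_of_faces {A X : Type} (g : (A × (ℚ × ℚ) → I) → X)
    (hg : ∀ a t t', t a = 0 → t' a = 1 → g t ≠ g t') :
    Injective fun z : A → I => g fun p => ramp p.2 (z p.1) := by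
  intro z z' hzz
  simp only at hzz
  funext a
  by_contra hne
  rcases lt_or_gt_of_ne hne with h | h
  · obtain ⟨ab, h1, h2⟩ := exists_ramp h
    exact hg (a, ab) _ _ h1 h2 hzz
  · obtain ⟨ab, h1, h2⟩ := exists_ramp h
    exact hg (a, ab) _ _ h1 h2 hzz.symm

lemma card_prod {A : Type} (hA : Cardinal.mk A ≤ Cardinal.aleph 1) :
    Cardinal.mk (A × (ℚ × ℚ)) ≤ Cardinal.aleph 1 := by
  rw [Cardinal.mk_prod, Cardinal.lift_id, Cardinal.lift_id]
  have h1 : Cardinal.mk (ℚ × ℚ) ≤ Cardinal.aleph 1 :=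
    (Cardinal.mk_le_aleph0_iff.2 inferInstance).trans (Cardinal.aleph0_le_aleph 1)
  exact (mul_le_mul' hA h1).trans (Cardinal.mul_eq_self (Cardinal.aleph0_le_aleph 1)).le

/-- If a continuous map from a Tychonoff cube to a Hausdorff space depends on uncountably many
coordinates in a strong sense, then its target contains the Tychonoff cube of weight `ω₁`. -/
theorem emb_cube {X : Type} [TopologicalSpace X] [T2Space X] {A : Type}
    (hA : Cardinal.mk A ≤ Cardinal.aleph 1) {B : Type} (H : ¬ Pool.Agent.H.MP_a58584.Neg B X) :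
    ∃ h : (A → I) → X, IsClosedEmbedding h := by
  simp only [Pool.Agent.H.MP_a58584.Neg, not_forall] at H
  obtain ⟨m, hm, H⟩ := H
  push Not at H
  obtain ⟨p, k, q, hq, h⟩ := delta (C := Unit)
    (P := {U : Set X × Set X // IsOpen U.1 ∧ IsOpen U.2 ∧ Disjoint U.1 U.2})
    (fun p => m ⁻¹' p.1.1) (fun p => m ⁻¹' p.1.2) (fun _ => ()) (fun p => p.2.1.preimage hm)
    (fun p => p.2.2.1.preimage hm) (fun p => p.2.2.2.preimage m) (fun S hS => by
      obtain ⟨r, h1, h2⟩ := exR hS 0
      obtain ⟨t, ht⟩ := H r h1 (m (r 0))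
      obtain ⟨U, V, h3, h4, h5, h6, h7⟩ := t2_separation ht
      exact ⟨⟨(U, V), h3, h4, h7⟩, r t, r 0, h5, h6, fun β hβ => by rw [h2 _ β hβ, h2 _ β hβ]⟩)
    (A × (ℚ × ℚ)) (card_prod hA)
  have hinj := injective_of_faces (A := A) (fun t => m (q t)) fun a t t' h0 h1 e => by
    have e1 := ((h a).2 t).1 h0
    have e2 := ((h a).2 t').2 h1
    rw [mem_preimage] at e1 e2
    exact Set.disjoint_left.1 (p a).2.2.2 e1 (e ▸ e2)
  refine ⟨_, Continuous.isClosedEmbedding ?_ hinj⟩
  exact hm.comp (hq.comp (continuous_pi fun p => (continuous_ramp p.2).comp (continuous_apply p.1)))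

/-- every non-metrizable t-extral space contains the Tychonoff cube of weight `ω₁` -/
theorem extral_emb_cube {X : Type} [TopologicalSpace X] [T35Space X] (H : TExtral X)
    (hm : ¬ MetrizableSpace X) (A : Type) (hA : Cardinal.mk A = Cardinal.aleph 1) :
    ∃ h : (A → I) → X, IsClosedEmbedding h := by
  have := H.compact
  obtain ⟨B, e, h1, h2, φ, h3, h4⟩ := H.cube
  exact emb_cube hA.le (notNeg e h1 h2 φ h3 h4 hm A hA)

end Pool.Agent.Helper75.TE
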